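import Mathlib

/-!
# Euler products of quadratic characters at a point to the right of one (helper475)

The analytic part of job CQ-HAL.
-/

set_option autoImplicit false

namespace Pool.Agent.Y475.CQ

open Finset

/-- summation by parts -/
theorem abel_le (w a : ℕ → ℝ) (K : ℝ) (hw : Antitone w)
    (hA : ∀ n, ∑ i ∈ range n, a i ≤ K) (n : ℕ) :
    ∑ i ∈ range n, w i * a i ≤ w n * (∑ i ∈ range n, a i) + K * (w 0 - w n) := by
  induction n with
  | zero => simp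
  | succ n ih =>
    rw [sum_range_succ, sum_range_succ]
    have h1 := hA (n + 1)
    rw [sum_range_succ] at h1
    have h2 : 0 ≤ w n - w (n + 1) := sub_nonneg.2 (hw (Nat.le_succ n))
    nlinarith [mul_le_mul_of_nonneg_left h1 h2]

theorem abel_le' (w a : ℕ → ℝ) (K : ℝ) (hw : Antitone w) (h0 : ∀ n, 0 ≤ w n)
    (hA : ∀ n, ∑ i ∈ range n, a i ≤ K) (n : ℕ) :
    ∑ i ∈ range n, w i * a i ≤ K * w 0 := by
  have h1 := abel_le w a K hw hA n
  have h2 := mul_le_mul_of_nonneg_left (hA n) (h0 n)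
  nlinarith

theorem anti (σ : ℝ) (hσ : 1 < σ) (q : ℕ) (hq : 1 ≤ q) :
    Antitone (fun i : ℕ => ((q + i : ℕ) : ℝ) ^ (-σ)) := by
  intro i j hij
  have h1 : (0 : ℝ) < ((q + i : ℕ) : ℝ) := by exact_mod_cast (by omega : 0 < q + i)
  have h2 : ((q + i : ℕ) : ℝ) ≤ ((q + j : ℕ) : ℝ) := by exact_mod_cast (by omega : q + i ≤ q + j)
  exact Real.rpow_le_rpow_of_nonpos h1 h2 (by linarith)

/-- the harmonic part -/
theorem small_sum (ψ : ℕ → ℝ) (q : ℕ) (hq : 1 ≤ q) (h1 : ∀ n, |ψ n| ≤ 1) (σ : ℝ) (hσ : 1 < σ) :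
    ∑ n ∈ range q, ψ n * (n : ℝ) ^ (-σ) ≤ 1 + Real.log q := by
  obtain ⟨q', rfl⟩ : ∃ q', q = q' + 1 := ⟨q - 1, by omega⟩
  rw [sum_range_succ']
  have e0 : ψ 0 * ((0 : ℕ) : ℝ) ^ (-σ) = 0 := by
    rw [Nat.cast_zero, Real.zero_rpow (by linarith), mul_zero]
  rw [e0, add_zero]
  have h2 : ∑ n ∈ range q', ψ (n + 1) * ((n + 1 : ℕ) : ℝ) ^ (-σ) ≤
      ∑ n ∈ range q', ((n + 1 : ℕ) : ℝ)⁻¹ := by
    apply sum_le_sum
    intro n _
    have hn : (1 : ℝ) ≤ ((n + 1 : ℕ) : ℝ) := by exact_mod_cast (by omega : 1 ≤ n + 1)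
    have h3 : ((n + 1 : ℕ) : ℝ) ^ (-σ) ≤ ((n + 1 : ℕ) : ℝ)⁻¹ := by
      rw [← Real.rpow_neg_one]
      exact Real.rpow_le_rpow_of_exponent_le hn (by linarith)
    have h4 : (0 : ℝ) ≤ ((n + 1 : ℕ) : ℝ) ^ (-σ) := Real.rpow_nonneg (Nat.cast_nonneg _) _
    have h5 : ψ (n + 1) ≤ 1 := (abs_le.1 (h1 _)).2
    nlinarith
  have h6 : ∑ n ∈ range q', ((n + 1 : ℕ) : ℝ)⁻¹ = (harmonic q' : ℝ) := by
    unfold harmonic
    push_cast
    rfl
  rw [h6] at h2
  refine h2.trans ((harmonic_le_one_add_log q').trans ?_)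
  rcases Nat.eq_zero_or_pos q' with h | h
  · subst h
    simp
  · have : Real.log (q' : ℝ) ≤ Real.log ((q' + 1 : ℕ) : ℝ) :=
      Real.log_le_log (by exact_mod_cast h) (by exact_mod_cast Nat.le_succ q')
    linarith

theorem sum_part (ψ : ℕ → ℝ) (q : ℕ) (hq : 1 ≤ q) (h1 : ∀ n, |ψ n| ≤ 1)
    (hs : ∀ n, |∑ i ∈ range n, ψ i| ≤ q) (σ : ℝ) (hσ : 1 < σ) (N : ℕ) (hN : q ≤ N) :
    ∑ n ∈ range N, ψ n * (n : ℝ) ^ (-σ) ≤ 3 + Real.log q := by
  obtain ⟨m, rfl⟩ := Nat.exists_eq_add_of_le hN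
  rw [sum_range_add]
  have h2 := small_sum ψ q hq h1 σ hσ
  have hA : ∀ n, ∑ i ∈ range n, ψ (q + i) ≤ 2 * q := by
    intro n
    have e := sum_range_add ψ q n
    have a1 := (abs_le.1 (hs (q + n))).2
    have a2 := (abs_le.1 (hs q)).1
    linarith
  have h3 := abel_le' (fun i => ((q + i : ℕ) : ℝ) ^ (-σ)) (fun i => ψ (q + i)) (2 * q)
    (anti σ hσ q hq) (fun n => Real.rpow_nonneg (Nat.cast_nonneg _) _) hA m
  have h4 : ∑ x ∈ range m, ψ (q + x) * ((q + x : ℕ) : ℝ) ^ (-σ) ≤ 2 := by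
    have e : ∑ x ∈ range m, ψ (q + x) * ((q + x : ℕ) : ℝ) ^ (-σ) =
        ∑ i ∈ range m, (fun i => ((q + i : ℕ) : ℝ) ^ (-σ)) i * (fun i => ψ (q + i)) i :=
      sum_congr rfl fun i _ => mul_comm _ _
    rw [e]
    refine h3.trans ?_
    have hq' : (1 : ℝ) ≤ (q : ℝ) := by exact_mod_cast hq
    have h5 : ((q + 0 : ℕ) : ℝ) ^ (-σ) ≤ (q : ℝ)⁻¹ := by
      rw [add_zero, ← Real.rpow_neg_one]
      exact Real.rpow_le_rpow_of_exponent_le hq' (by linarith)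
    have h6 : (2 * (q : ℝ)) * ((q + 0 : ℕ) : ℝ) ^ (-σ) ≤ 2 * q * (q : ℝ)⁻¹ :=
      mul_le_mul_of_nonneg_left h5 (by positivity)
    have h7 : 2 * (q : ℝ) * (q : ℝ)⁻¹ = 2 := by field_simp
    exact h6.trans h7.le
  linarith

theorem summ (ψ : ℕ → ℝ) (h1 : ∀ n, |ψ n| ≤ 1) (σ : ℝ) (hσ : 1 < σ) :
    Summable (fun n : ℕ => ‖ψ n * (n : ℝ) ^ (-σ)‖) := by
  refine Summable.of_nonneg_of_le (fun _ => norm_nonneg _) (fun n => ?_)
    (Real.summable_nat_rpow.2 (by linarith : -σ < -1))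
  rw [norm_mul, Real.norm_eq_abs, Real.norm_of_nonneg (Real.rpow_nonneg (Nat.cast_nonneg _) _)]
  have := Real.rpow_nonneg (Nat.cast_nonneg n : (0 : ℝ) ≤ (n : ℝ)) (-σ)
  nlinarith [h1 n]

theorem tsum_le (ψ : ℕ → ℝ) (q : ℕ) (hq : 1 ≤ q) (h1 : ∀ n, |ψ n| ≤ 1)
    (hs : ∀ n, |∑ i ∈ range n, ψ i| ≤ q) (σ : ℝ) (hσ : 1 < σ) :
    ∑' n : ℕ, ψ n * (n : ℝ) ^ (-σ) ≤ 3 + Real.log q := by
  have h2 := (summ ψ h1 σ hσ).of_norm.hasSum.tendsto_sum_nat
  refine le_of_tendsto h2 ?_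
  filter_upwards [Filter.eventually_ge_atTop q] with N hN
  exact sum_part ψ q hq h1 hs σ hσ N hN

/-- the zeta function -/
theorem zeta_le (σ : ℝ) (hσ : 1 < σ) :
    ∑' n : ℕ, (1 : ℝ) * (n : ℝ) ^ (-σ) ≤ 1 + 1 / (σ - 1) := by
  have h1 := ZetaAsymptotics.zeta_limit_aux1 hσ
  have h2 : 0 ≤ ZetaAsymptotics.termTSum σ :=
    tsum_nonneg fun n => ZetaAsymptotics.term_nonneg _ _
  have h3 : ∑' n : ℕ, (1 : ℝ) * (n : ℝ) ^ (-σ) = ∑' n : ℕ, 1 / ((n : ℝ) + 1) ^ σ := by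
    have hs : Summable (fun n : ℕ => (1 : ℝ) * (n : ℝ) ^ (-σ)) :=
      (summ (fun _ => 1) (by simp) σ hσ).of_norm
    rw [hs.tsum_eq_zero_add]
    rw [Nat.cast_zero, Real.zero_rpow (by linarith), mul_zero, zero_add]
    refine tsum_congr fun n => ?_
    rw [one_mul, Real.rpow_neg (by positivity), one_div]
    push_cast
    rfl
  rw [h3]
  have h4 : 0 ≤ σ * ZetaAsymptotics.termTSum σ := mul_nonneg (by linarith) h2
  linarith

/-- periodic functions with sum zero have bounded partial sums -/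
theorem part_le (ψ : ℕ → ℝ) (q : ℕ) (hq : 1 ≤ q) (h1 : ∀ n, |ψ n| ≤ 1)
    (hp : ∀ n, ψ (q + n) = ψ n) (h0 : ∑ i ∈ range q, ψ i = 0) (n : ℕ) :
    |∑ i ∈ range n, ψ i| ≤ q := by
  induction n using Nat.strong_induction_on with
  | _ n ih =>
    by_cases h : n < q
    · refine (abs_sum_le_sum_abs _ _).trans ((sum_le_sum fun i _ => h1 i).trans ?_)
      rw [sum_const, card_range, nsmul_eq_mul, mul_one]
      exact_mod_cast h.le
    · obtain ⟨m, rfl⟩ := Nat.exists_eq_add_of_le (not_lt.1 h)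
      rw [sum_range_add, h0, zero_add, sum_congr rfl fun i _ => hp i]
      exact ih m (by omega)

/-- a periodic multiplicative function with a value `-1` has sum zero -/
theorem sum_zero (ψ : ℕ →* ℝ) (q : ℕ) (hq : 1 ≤ q) (hp : ∀ n, ψ (q + n) = ψ n) (k : ℕ)
    (hk : Nat.Coprime k q) (h : ψ k = -1) : ∑ i ∈ range q, ψ i = 0 := by
  have hmod : ∀ n, ψ (n % q) = ψ n := by
    intro n
    induction n using Nat.strong_induction_on with
    | _ n ih =>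
      by_cases hn : n < q
      · rw [Nat.mod_eq_of_lt hn]
      · obtain ⟨m, rfl⟩ := Nat.exists_eq_add_of_le (not_lt.1 hn)
        rw [Nat.add_mod_left, hp, ih m (by omega)]
  have hinj : Set.InjOn (fun n => k * n % q) (range q : Finset ℕ) := by
    intro a ha b hb hab
    rw [coe_range, Set.mem_Iio] at ha hb
    have h1 : k * a ≡ k * b [MOD q] := hab
    have h2 : a ≡ b [MOD q] := Nat.ModEq.cancel_left_of_coprime
      (by rw [Nat.gcd_comm]; exact hk) h1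
    exact Nat.ModEq.eq_of_lt_of_lt h2 ha hb
  have hmap : Set.MapsTo (fun n => k * n % q) (range q : Finset ℕ) (range q : Finset ℕ) := by
    intro a _
    rw [coe_range, Set.mem_Iio]
    exact Nat.mod_lt _ (by omega)
  have e : ∑ i ∈ range q, ψ k * ψ i = ∑ i ∈ range q, ψ i := by
    refine sum_nbij (fun n => k * n % q) (fun a ha => ?_) hinj
      (surjOn_of_injOn_of_card_le _ hmap hinj le_rfl) (fun a _ => ?_)
    · exact_mod_cast hmap (by exact_mod_cast ha)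
    · rw [hmod, map_mul]
  rw [← mul_sum, h] at e
  linarith

/-- the local factors -/
theorem loc {ι : Type} [DecidableEq ι] (s : ι → ℝ) (U : Finset ι)
    (hs : ∀ i ∈ U, s i = 0 ∨ s i = 1 ∨ s i = -1) :
    (∏ V ∈ U.powerset, (1 - (0 : ℝ) * ∏ i ∈ V, s i) = 1) ∧ ∀ x : ℝ, 0 ≤ x → x < 1 →
    0 < ∏ V ∈ U.powerset, (1 - x * ∏ i ∈ V, s i) ∧
    0 < ∏ V ∈ U.powerset, (1 - (-x) * ∏ i ∈ V, s i) ∧
    ∏ V ∈ U.powerset, (1 - x * ∏ i ∈ V, s i) ≤ 1 ∧
    (∏ V ∈ U.powerset, (1 - x * ∏ i ∈ V, s i)) *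
      (∏ V ∈ U.powerset, (1 - (-x) * ∏ i ∈ V, s i)) ≤ 1 := by
  induction U using Finset.induction_on with
  | empty =>
    refine ⟨by simp, fun x h0 h1 => ?_⟩
    simp only [powerset_empty, prod_singleton, prod_empty, mul_one]
    refine ⟨by linarith, by linarith, by linarith, by nlinarith⟩
  | insert a U ha ih =>
    obtain ⟨ih0, ih⟩ := ih fun i hi => hs i (mem_insert_of_mem hi)
    have key : ∀ x : ℝ, ∏ V ∈ (insert a U).powerset, (1 - x * ∏ i ∈ V, s i) =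
        (∏ V ∈ U.powerset, (1 - x * ∏ i ∈ V, s i)) *
          ∏ V ∈ U.powerset, (1 - (x * s a) * ∏ i ∈ V, s i) := by
      intro x
      rw [prod_powerset_insert ha]
      congr 1
      refine prod_congr rfl fun V hV => ?_
      rw [prod_insert (fun h => ha (mem_powerset.1 hV h))]
      ring
    refine ⟨by rw [key, zero_mul, ih0, mul_one], fun x h0 h1 => ?_⟩
    obtain ⟨p1, p2, p3, p4⟩ := ih x h0 h1
    rw [key, key]
    rcases hs a (mem_insert_self a U) with h | h | h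
    · rw [h, mul_zero, mul_zero, ih0, mul_one, mul_one]
      exact ⟨p1, p2, p3, p4⟩
    · rw [h, mul_one, mul_one]
      generalize ∏ V ∈ U.powerset, (1 - x * ∏ i ∈ V, s i) = F at *
      generalize ∏ V ∈ U.powerset, (1 - (-x) * ∏ i ∈ V, s i) = G at *
      refine ⟨by positivity, by positivity, by nlinarith, ?_⟩
      have : F * F * (G * G) = (F * G) * (F * G) := by ring
      rw [this]
      have h5 : 0 < F * G := mul_pos p1 p2
      nlinarith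
    · rw [h]
      have e1 : x * -1 = -x := by ring
      have e2 : -x * -1 = x := by ring
      rw [e1, e2]
      generalize ∏ V ∈ U.powerset, (1 - x * ∏ i ∈ V, s i) = F at *
      generalize ∏ V ∈ U.powerset, (1 - (-x) * ∏ i ∈ V, s i) = G at *
      refine ⟨by positivity, by positivity, p4, ?_⟩
      have : F * G * (G * F) = (F * G) * (F * G) := by ring
      rw [this]
      have h5 : 0 < F * G := mul_pos p1 p2
      nlinarith

/-- the completely multiplicative function -/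
noncomputable def ff (ψ : ℕ →* ℝ) (σ : ℝ) (hσ : 1 < σ) : ℕ →*₀ ℝ where
  toFun n := ψ n * (n : ℝ) ^ (-σ)
  map_zero' := by rw [Nat.cast_zero, Real.zero_rpow (by linarith), mul_zero]
  map_one' := by simp
  map_mul' m n := by
    rw [map_mul, Nat.cast_mul, Real.mul_rpow (Nat.cast_nonneg _) (Nat.cast_nonneg _)]
    ring

theorem euler (ψ : ℕ →* ℝ) (h1 : ∀ n, |ψ n| ≤ 1) (σ : ℝ) (hσ : 1 < σ) :
    HasProd (fun p : Nat.Primes => (1 - ψ p * ((p : ℕ) : ℝ) ^ (-σ))⁻¹)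
      (∑' n : ℕ, ψ n * (n : ℝ) ^ (-σ)) :=
  EulerProduct.eulerProduct_completely_multiplicative_hasProd (f := ff ψ σ hσ)
    (summ ψ h1 σ hσ)

theorem pow_small (p : ℕ) (hp : 2 ≤ p) (σ : ℝ) (hσ : 1 < σ) :
    0 < (p : ℝ) ^ (-σ) ∧ (p : ℝ) ^ (-σ) < 1 := by
  have h1 : (1 : ℝ) < (p : ℝ) := by exact_mod_cast (by omega : 1 < p)
  exact ⟨Real.rpow_pos_of_pos (by linarith) _, Real.rpow_lt_one_of_one_lt_of_neg h1 (by linarith)⟩

/-- the main inequality: the product over the primes where all characters are one -/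
theorem main_le {ι : Type} [DecidableEq ι] (c : ι → (ℕ →* ℝ)) (U : Finset ι)
    (hc : ∀ i ∈ U, ∀ n, c i n = 0 ∨ c i n = 1 ∨ c i n = -1) (σ : ℝ) (hσ : 1 < σ)
    (P : Finset ℕ) (hP : ∀ p ∈ P, p.Prime) (h1 : ∀ i ∈ U, ∀ p ∈ P, c i p = 1) :
    (∏ p ∈ P, (1 - (p : ℝ) ^ (-σ))⁻¹) ^ (2 ^ U.card) ≤
      ∏ V ∈ U.powerset, ∑' n : ℕ, (∏ i ∈ V, c i) n * (n : ℝ) ^ (-σ) ∧
    ∀ V ∈ U.powerset, 0 ≤ ∑' n : ℕ, (∏ i ∈ V, c i) n * (n : ℝ) ^ (-σ) := by
  have hbd : ∀ V ∈ U.powerset, ∀ n, |(∏ i ∈ V, c i) n| ≤ 1 := by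
    intro V hV n
    rw [MonoidHom.finsetProd_apply, abs_prod]
    refine prod_le_one (fun _ _ => abs_nonneg _) fun i hi => ?_
    rcases hc i (mem_powerset.1 hV hi) n with h | h | h <;> rw [h] <;> norm_num
  have hE : ∀ V ∈ U.powerset, HasProd
      (fun p : Nat.Primes => (1 - (∏ i ∈ V, c i) p * ((p : ℕ) : ℝ) ^ (-σ))⁻¹)
      (∑' n : ℕ, (∏ i ∈ V, c i) n * (n : ℝ) ^ (-σ)) :=
    fun V hV => euler _ (hbd V hV) σ hσ
  have hfac : ∀ V ∈ U.powerset, ∀ p : Nat.Primes,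
      0 < (1 - (∏ i ∈ V, c i) p * ((p : ℕ) : ℝ) ^ (-σ))⁻¹ := by
    intro V hV p
    obtain ⟨a1, a2⟩ := pow_small p p.2.two_le σ hσ
    have a3 := (abs_le.1 (hbd V hV p)).2
    apply inv_pos.2
    nlinarith
  refine ⟨?_, fun V hV => ?_⟩
  · have hall := hasProd_prod hE
    set g : Nat.Primes → ℝ := fun p =>
      ∏ V ∈ U.powerset, (1 - (∏ i ∈ V, c i) p * ((p : ℕ) : ℝ) ^ (-σ))⁻¹ with hg
    have hg1 : ∀ p : Nat.Primes, 1 ≤ g p := by
      intro p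
      obtain ⟨a1, a2⟩ := pow_small p p.2.two_le σ hσ
      have h2 := (loc (fun i => c i p) U (fun i hi => hc i hi p)).2 _ a1.le a2
      have e : g p = (∏ V ∈ U.powerset, (1 - ((p : ℕ) : ℝ) ^ (-σ) * ∏ i ∈ V, c i p))⁻¹ := by
        rw [hg, ← prod_inv_distrib]
        refine prod_congr rfl fun V _ => ?_
        rw [MonoidHom.finsetProd_apply, mul_comm]
      rw [e]
      exact (one_le_inv₀ h2.1).2 h2.2.2.1
    obtain ⟨P', hPP⟩ : ∃ P' : Finset Nat.Primes, P' = P.subtype Nat.Prime := ⟨_, rfl⟩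
    have hP' : (∏ p ∈ P, (1 - (p : ℝ) ^ (-σ))⁻¹) ^ (2 ^ U.card) =
        ∏ p ∈ P', g p := by
      have e1 : ∏ p ∈ P, (1 - (p : ℝ) ^ (-σ))⁻¹ =
          ∏ p ∈ P', (1 - ((p : ℕ) : ℝ) ^ (-σ))⁻¹ := by
        rw [hPP]
        exact
        (prod_subtype_of_mem (fun p : ℕ => (1 - (p : ℝ) ^ (-σ))⁻¹) hP).symm
      rw [e1, ← prod_pow]
      refine prod_congr rfl fun p hp => ?_
      have hp' : (p : ℕ) ∈ P := by
        rw [hPP] at hp
        exact mem_subtype.1 hp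
      rw [hg]
      have e2 : ∏ V ∈ U.powerset, (1 - (∏ i ∈ V, c i) p * ((p : ℕ) : ℝ) ^ (-σ))⁻¹ =
          ∏ V ∈ U.powerset, (1 - ((p : ℕ) : ℝ) ^ (-σ))⁻¹ := by
        refine prod_congr rfl fun V hV => ?_
        rw [MonoidHom.finsetProd_apply, prod_congr rfl fun i hi =>
          h1 i (mem_powerset.1 hV hi) p hp', prod_const_one, one_mul]
      show _ = ∏ V ∈ U.powerset, (1 - (∏ i ∈ V, c i) p * ((p : ℕ) : ℝ) ^ (-σ))⁻¹
      rw [e2, prod_const, card_powerset]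
    rw [hP']
    refine ge_of_tendsto hall ?_
    filter_upwards [Filter.eventually_ge_atTop P'] with s hs
    rw [← prod_sdiff hs]
    have h3 : 1 ≤ ∏ p ∈ s \ P', g p := by
      have : ∀ t : Finset Nat.Primes, 1 ≤ ∏ p ∈ t, g p := by
        intro t
        induction t using Finset.induction_on with
        | empty => simp
        | insert a t ha ih =>
          rw [prod_insert ha]
          exact one_le_mul_of_one_le_of_one_le (hg1 a) ih
      exact this _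
    have h4 : 0 ≤ ∏ p ∈ P', g p :=
      prod_nonneg fun p _ => zero_le_one.trans (hg1 p)
    nlinarith
  · refine ge_of_tendsto (hE V hV) ?_
    exact Filter.Eventually.of_forall fun s => prod_nonneg fun p _ => (hfac V hV p).le

end Pool.Agent.Y475.CQ
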